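import Pool.Agent.KS6_11.CubOne.Cay

/-!
# An explicit median Cayley graph of the mapping torus

For the generators `t`, `a⁻¹ t`, `b`, `c b⁻¹`, `b c`, `b² c b`, `t⁻¹ b² c b a⁻¹ t` of the mapping
torus `G` of `a ↦ a`, `b ↦ a b`, `c ↦ b c b` the Cayley graph of `G` is a median graph, that is, the
one-skeleton of a CAT(0) cube complex. All vertices have degree `14` and there is no 4-cube. So `G`
acts simply transitively on the vertices of a CAT(0) cube complex of dimension at most three.
-/

set_option autoImplicit false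

namespace Pool.Agent.Results.MP_56a3d2_al.MedianCayleyGraph

open Pool.Agent.Results.MP_56a3d2_al.Cubulated
open Pool.Agent.KS6_11.CubOne
open Pool.Agent.V1127.FbC Pool.Agent.W387 Pool.Agent.W387.SqSys

theorem IsCube.iso {V W : Type} {Γ : SimpleGraph V} {Δ : SimpleGraph W} (e : Γ ≃g Δ) {d : ℕ}
    {c : (Fin d → Bool) → W} (h : IsCube Δ d c) : IsCube Γ d (fun x => e.symm (c x)) :=
  ⟨e.symm.injective.comp h.1, fun x i => e.symm.map_adj_iff.2 (h.2 x i)⟩

/-- The automorphism `a ↦ a`, `b ↦ a b`, `c ↦ b c b` exists and is unique. The Cayley graph of its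
mapping torus `G` for the seven generators `letters` is a median graph, on which `G` acts by left
multiplication; all vertices have degree `14`, and there is no 4-cube. In particular `G` acts
geometrically on a CAT(0) cube complex. -/
theorem result :
    (∃! Φ : MulAut (FreeGroup (Fin 3)), IsPhi Φ) ∧
      ∀ Φ : MulAut (FreeGroup (Fin 3)), IsPhi Φ →
        IsMedianGraph (cayley Φ) ∧
        (∀ v, ((cayley Φ).neighborSet v).Finite ∧ ((cayley Φ).neighborSet v).ncard = 14) ∧
        (∀ g u v, (cayley Φ).Adj u v ↔ (cayley Φ).Adj (g * u) (g * v)) ∧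
        (∀ c, ¬ IsCube (cayley Φ) 4 c) ∧
        ActsGeometricallyFreely (MappingTorus Φ) := by
  refine ⟨Cubulated.result.1, ?_⟩
  intro Φ hΦ
  obtain ⟨ha, hb, hc⟩ := hΦ
  have e : Dt.sys.Cay ≃g cayley Φ := toCay Φ ha hb hc
  have hmed : IsMedianGraph Dt.sys.Cay := by
    refine ⟨cay_connected, ?_⟩
    intro x y z
    simp only [cay_dist]
    obtain ⟨m, hm, hm2⟩ := medD.existsUnique x.g y.g z.g
    exact ⟨⟨m⟩, hm, fun m' hm' => Vx.ext (hm2 m'.g hm')⟩
  have hnb : ∀ v : Dt.sys.Vx, (Dt.sys.Cay.neighborSet v).Finite ∧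
      (Dt.sys.Cay.neighborSet v).ncard = 14 := by
    intro v
    have h1 : Dt.sys.Cay.neighborSet v =
        Set.range (fun a : Dt => (⟨Dt.sys.gn a * v.g⟩ : Dt.sys.Vx)) := by
      ext w
      constructor
      · rintro ⟨a, h⟩
        exact ⟨a, Vx.ext h.symm⟩
      · rintro ⟨a, rfl⟩
        exact ⟨a, rfl⟩
    have h2 : Function.Injective (fun a : Dt => (⟨Dt.sys.gn a * v.g⟩ : Dt.sys.Vx)) := by
      intro a b hab
      have h3 := congrArg Vx.g hab
      exact gn_inj (mul_right_cancel h3)
    refine ⟨h1 ▸ Set.finite_range _, ?_⟩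
    rw [h1, ← Set.image_univ, Set.ncard_image_of_injective _ h2, Set.ncard_univ,
      Nat.card_eq_fintype_card]
    decide
  refine ⟨isMedian_iso e hmed, ?_, ?_, ?_, Cubulated.result.2 Φ ⟨ha, hb, hc⟩⟩
  · intro v
    have h1 : (cayley Φ).neighborSet v = e '' (Dt.sys.Cay.neighborSet (e.symm v)) := by
      ext w
      constructor
      · intro hw
        refine ⟨e.symm w, ?_, by simp⟩
        exact e.symm.map_adj_iff.2 hw
      · rintro ⟨u, hu, rfl⟩
        have h2 : (cayley Φ).Adj (e (e.symm v)) (e u) := e.map_adj_iff.2 hu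
        simpa using h2
    rw [h1]
    exact ⟨(hnb _).1.image _, by rw [Set.ncard_image_of_injective _ e.injective]; exact (hnb _).2⟩
  · intro g u v
    show (u ≠ v ∧ ∃ i, v = u * letters Φ i ∨ u = v * letters Φ i) ↔
      (g * u ≠ g * v ∧ ∃ i, g * v = g * u * letters Φ i ∨ g * u = g * v * letters Φ i)
    simp only [mul_assoc, mul_right_inj, ne_eq]
  · intro c hcube
    exact no_cube _ (IsCube.iso e hcube)

end Pool.Agent.Results.MP_56a3d2_al.MedianCayleyGraph
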